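import Pool.Agent.TS.L.Orb
import Pool.Agent.TS.V.Sub
import Pool.Agent.H73.DU.SplitPrime

/-!
# TS/X-Exc: every number field has a place of odd local degree outside `T`
-/

namespace Pool.Agent.TS

open NumberField IsDedekindDomain Pool.Agent.HWR Pool.Agent.H73.DU Pool.Agent.H73.AL
  Pool.Agent.LD

private theorem xe_alg (inst : Algebra ℚ (AlgebraicClosure ℚ)) :
    IsAlgClosure ℚ (AlgebraicClosure ℚ) := by
  have h : inst = AlgebraicClosure.instAlgebra ℚ := Subsingleton.elim _ _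
  subst h
  infer_instance

private theorem xe_gal (X : NF) : ∃ (L : Type) (_ : Field L) (_ : NumberField L),
    IsGalois ℚ L ∧ ∃ _ : X.F →+* L, True := by
  have hcl : IsAlgClosure ℚ (AlgebraicClosure ℚ) := xe_alg inferInstance
  have hal : IsAlgClosed (AlgebraicClosure ℚ) := inferInstance
  have hno : Normal ℚ (AlgebraicClosure ℚ) := IsAlgClosure.normal ℚ _
  let φ1 : X.F →ₐ[ℚ] AlgebraicClosure ℚ := IsAlgClosed.lift
  let L : IntermediateField ℚ (AlgebraicClosure ℚ) :=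
    IntermediateField.normalClosure ℚ X.F (AlgebraicClosure ℚ)
  have hfin : FiniteDimensional ℚ L := normalClosure.is_finiteDimensional ℚ X.F _
  have hnorm : Normal ℚ L := normalClosure.normal ℚ X.F _
  have hgal : IsGalois ℚ L := {}
  have hnf : NumberField L := {}
  have hle : φ1.fieldRange ≤ L := AlgHom.fieldRange_le_normalClosure φ1
  let φ1' : X.F →+* L :=
    (IntermediateField.inclusion hle).toRingHom.comp φ1.rangeRestrict.toRingHom
  exact ⟨L, inferInstance, hnf, hgal, φ1', trivial⟩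

private theorem xe_aut {p : ℕ} [Fact p.Prime] (σ : AlgebraicClosure ℚ_[p] ≃ₐ[ℚ_[p]]
    AlgebraicClosure ℚ_[p]) (a : AlgebraicClosure ℚ_[p]) : ‖σ a‖ = ‖a‖ := by
  have h := (spectralNorm_eq_of_equiv σ a).symm
  exact h

private theorem xe_fix (L : Type) [Field L] [NumberField L] [IsGalois ℚ L] (p : ℕ)
    [Fact p.Prime] (Q : HeightOneSpectrum (𝓞 L)) (χ : L →+* AlgebraicClosure ℚ)
    (hχ : IsPl p χ Q) (hQ : ∀ γ : L ≃ₐ[ℚ] L, γ ≠ 1 →
      ∃ x y : 𝓞 L, x ∈ Q.asIdeal ∧ (y : L) = γ (x : L) ∧ y ∉ Q.asIdeal) :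
    ∀ d ∈ decomp ℚ_[p] (emb p), d • χ = χ := by
  rintro d ⟨σ, hσ⟩
  let _ : Algebra L (AlgebraicClosure ℚ) := χ.toAlgebra
  have hst : IsScalarTower ℚ L (AlgebraicClosure ℚ) :=
    IsScalarTower.of_algebraMap_eq' (Subsingleton.elim _ _)
  have hd : ∀ x : L, χ ((AlgEquiv.restrictNormal d L) x) = d (χ x) :=
    fun x => AlgEquiv.restrictNormal_commutes d L x
  have h1 : AlgEquiv.restrictNormal d L = 1 := by
    by_contra hne
    obtain ⟨x, y, hx, hy, hyQ⟩ := hQ _ hne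
    apply hyQ
    rw [hχ y, hy, hd, hσ, xe_aut]
    exact (hχ x).1 hx
  ext x
  rw [smul_emb, ← hd, h1]
  rfl

theorem exists_odd_place (T : Finset ℕ) (X : NF) : ∃ p : ℕ, p.Prime ∧ p ∉ T ∧
    ∃ w : HeightOneSpectrum (𝓞 X.F), ((p : ℕ) : 𝓞 X.F) ∈ w.asIdeal ∧ ¬ 2 ∣ locDeg ℚ w := by
  classical
  obtain ⟨L, _, _, hgal, j, -⟩ := xe_gal X
  obtain ⟨m, hm⟩ : ∃ m : ℤ, m = ∏ p ∈ T.filter Nat.Prime, (p : ℤ) := ⟨_, rfl⟩
  have hm0 : m ≠ 0 := by
    rw [hm]
    refine Finset.prod_ne_zero_iff.2 fun p hp => ?_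
    exact_mod_cast (Finset.mem_filter.1 hp).2.ne_zero
  obtain ⟨Q, l, hQ1, hQ2, hl, hlQ, hlm, hQ3⟩ := exists_split L m hm0
  have hlT : l ∉ T := by
    intro h
    apply hlm
    rw [hm]
    exact Finset.dvd_prod_of_mem (fun p : ℕ => (p : ℤ)) (Finset.mem_filter.2 ⟨h, hl⟩)
  have : Fact l.Prime := ⟨hl⟩
  obtain ⟨χ, hχ⟩ := exists_emb l L ⟨Q, hQ1, hQ2⟩ hlQ
  have hfix := xe_fix L l ⟨Q, hQ1, hQ2⟩ χ hχ hQ3
  obtain ⟨w, hw⟩ := exists_isPl l (χ.comp j)
  refine ⟨l, hl, hlT, w, isPl_mem hw, ?_⟩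
  rw [← card_orb l (χ.comp j) hw]
  have h1 : Nat.card {ρ : X.F →+* AlgebraicClosure ℚ //
      ∃ d ∈ decomp ℚ_[l] (emb l), d • (χ.comp j) = ρ} = 1 := by
    rw [Nat.card_eq_one_iff_unique]
    refine ⟨⟨?_⟩, ⟨⟨χ.comp j, 1, Subgroup.one_mem _, one_smul _ _⟩⟩⟩
    have h2 : ∀ d ∈ decomp ℚ_[l] (emb l), d • (χ.comp j) = χ.comp j := by
      intro d hd
      ext x
      have h3 := RingHom.congr_fun (hfix d hd) (j x)
      exact h3
    rintro ⟨a, d, hd, rfl⟩ ⟨b, e, he, rfl⟩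
    apply Subtype.ext
    change d • (χ.comp j) = e • (χ.comp j)
    rw [h2 d hd, h2 e he]
  rw [h1]
  norm_num

/-- isomorphic fields -/
theorem evV_congr {V T : Finset ℕ} (F X : NF) (e : X.F ≃+* F.F) (h : EvV V T F.F) :
    EvV V T X.F := by
  obtain ⟨ψ, -⟩ : ∃ ψ : F.F →+* AlgebraicClosure ℚ, True := by
    have hcl : IsAlgClosure ℚ (AlgebraicClosure ℚ) := xe_alg inferInstance
    have hal : IsAlgClosed (AlgebraicClosure ℚ) := inferInstance
    let φ1 : F.F →ₐ[ℚ] AlgebraicClosure ℚ := IsAlgClosed.lift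
    exact ⟨φ1.toRingHom, trivial⟩
  refine evG_stb F ψ h X (ψ.comp e.toRingHom) ?_
  intro g hg
  refine MulAction.mem_stabilizer_iff.2 ?_
  have h1 := MulAction.mem_stabilizer_iff.1 hg
  ext x
  have h2 := RingHom.congr_fun h1 (e.symm x)
  have h3 : (ψ.comp e.toRingHom) (e.symm x) = ψ x := by
    change ψ (e (e.symm x)) = ψ x
    rw [e.apply_symm_apply]
  rw [smul_emb, h3] at h2
  rw [smul_emb]
  exact h2

/-- a finite set `V'` which contains `V`, such that no field of the list has even local degrees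
above `V'` -/
theorem exists_V (V T : Finset ℕ) (L : List NF) : ∃ V' : Finset ℕ, V ⊆ V' ∧
    ∀ F : NF, EvV V' T F.F → ∀ X ∈ L, ¬ Nonempty (X.F ≃+* F.F) := by
  classical
  induction L with
  | nil => exact ⟨V, Finset.Subset.refl _, fun F _ X hX => absurd hX List.not_mem_nil⟩
  | cons Y L ih =>
    obtain ⟨V', h1, h2⟩ := ih
    obtain ⟨p, hp, hpT, w, hw, hodd⟩ := exists_odd_place T Y
    refine ⟨insert p V', h1.trans (Finset.subset_insert _ _), ?_⟩
    intro F hF X hX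
    rcases List.mem_cons.1 hX with rfl | hX
    · rintro ⟨e⟩
      have h3 := evV_congr F X e hF
      exact hodd (h3 p (Finset.mem_insert_self _ _) hp hpT w hw)
    · refine h2 F ?_ X hX
      intro q hq
      exact hF q (Finset.mem_insert_of_mem hq)

end Pool.Agent.TS
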